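import Mathlib

/-!
Self-adjoint operators on smooth Banach spaces: basic facts on the duality map.
-/

namespace Q88.SM

open Filter Topology

variable {X : Type*} [NormedAddCommGroup X] [NormedSpace ℂ X]

/-- Every unit vector has exactly one supporting functional of norm one. -/
def Smooth (X : Type*) [NormedAddCommGroup X] [NormedSpace ℂ X] : Prop :=
  ∀ x : X, ‖x‖ = 1 → ∃! f : X →L[ℂ] ℂ, ‖f‖ = 1 ∧ f x = 1

/-- `J` is a duality map: `‖J x‖ = ‖x‖` and `J x x = ‖x‖ ^ 2`. -/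
def IsDuality (J : X → X →L[ℂ] ℂ) : Prop :=
  ∀ x, ‖J x‖ = ‖x‖ ∧ J x x = ((‖x‖ ^ 2 : ℝ) : ℂ)

/-- `T` is self-adjoint: `J (T x) y = J x (T y)`. -/
def SelfAdj (J : X → X →L[ℂ] ℂ) (T : X →L[ℂ] X) : Prop :=
  ∀ x y, J (T x) y = J x (T y)

variable {J : X → X →L[ℂ] ℂ}

theorem J_le (hJ : IsDuality J) (x y : X) : ‖J x y‖ ≤ ‖x‖ * ‖y‖ := by
  have := (J x).le_opNorm y
  rwa [(hJ x).1] at this

theorem J_eq (hX : Smooth X) (hJ : IsDuality J) (u : X) (g : X →L[ℂ] ℂ)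
    (h1 : ∀ v, ‖g v‖ ≤ ‖u‖ * ‖v‖) (h2 : g u = ((‖u‖ ^ 2 : ℝ) : ℂ)) : g = J u := by
  by_cases hu : u = 0
  · subst hu
    have e1 : J (0 : X) = 0 := by
      have := (hJ 0).1
      rw [norm_zero] at this
      exact norm_eq_zero.1 this
    rw [e1]
    ext v
    have := h1 v
    rw [norm_zero, zero_mul] at this
    simpa using this
  · have hu0 : 0 < ‖u‖ := norm_pos_iff.2 hu
    have hgn : ‖g‖ ≤ ‖u‖ := g.opNorm_le_bound hu0.le h1
    set c : ℂ := ((‖u‖⁻¹ : ℝ) : ℂ) with hc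
    have hcn : ‖c‖ = ‖u‖⁻¹ := by
      rw [hc, Complex.norm_real, Real.norm_of_nonneg (inv_nonneg.2 hu0.le)]
    have hx : ‖c • u‖ = 1 := by
      rw [norm_smul, hcn, inv_mul_cancel₀ hu0.ne']
    have key : ∀ f : X →L[ℂ] ℂ, ‖f‖ ≤ ‖u‖ → f u = ((‖u‖ ^ 2 : ℝ) : ℂ) →
        ‖c • f‖ = 1 ∧ (c • f) (c • u) = 1 := by
      intro f hf1 hf2
      have e2 : (c • f) (c • u) = 1 := by
        rw [_root_.smul_apply, map_smul, hf2, smul_eq_mul, smul_eq_mul, hc,
          ← Complex.ofReal_mul, ← Complex.ofReal_mul]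
        rw [← Complex.ofReal_one]
        congr 1
        field_simp
      refine ⟨le_antisymm ?_ ?_, e2⟩
      · rw [norm_smul, hcn]
        calc ‖u‖⁻¹ * ‖f‖ ≤ ‖u‖⁻¹ * ‖u‖ := by gcongr
          _ = 1 := inv_mul_cancel₀ hu0.ne'
      · have := (c • f).le_opNorm (c • u)
        rw [e2, hx, mul_one, norm_one] at this
        exact this
    have h3 := (hX _ hx).unique (key g hgn h2) (key (J u) (hJ u).1.le (hJ u).2)
    have hc0 : c ≠ 0 := by
      rw [← norm_ne_zero_iff, hcn]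
      exact inv_ne_zero hu0.ne'
    exact smul_right_injective _ hc0 h3

theorem J_self_re (hJ : IsDuality J) (x : X) : (J x x).re = ‖x‖ ^ 2 := by
  rw [(hJ x).2, Complex.ofReal_re]

/-- The subgradient inequality. -/
theorem sub_ineq (hJ : IsDuality J) (x z : X) :
    ‖x‖ ^ 2 + 2 * (J x (z - x)).re ≤ ‖z‖ ^ 2 := by
  have h1 : (J x z).re ≤ ‖x‖ * ‖z‖ := (Complex.re_le_norm _).trans (J_le hJ x z)
  rw [map_sub, Complex.sub_re, J_self_re hJ]
  nlinarith [sq_nonneg (‖x‖ - ‖z‖)]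

theorem J_of_sub (hX : Smooth X) (hJ : IsDuality J) (u : X) (g : X →L[ℂ] ℂ)
    (h : ∀ w, ‖u‖ ^ 2 + 2 * (g (w - u)).re ≤ ‖w‖ ^ 2) : g = J u := by
  -- real part of `g u`
  have h1 : (g u).re = ‖u‖ ^ 2 := by
    have hk : ∀ t : ℝ, 2 * t * (g u).re ≤ (2 * t + t ^ 2) * ‖u‖ ^ 2 := by
      intro t
      have := h (((1 + t : ℝ) : ℂ) • u)
      have e1 : ((1 + t : ℝ) : ℂ) • u - u = (t : ℂ) • u := by
        push_cast
        module
      rw [e1, map_smul, norm_smul, Complex.norm_real, smul_eq_mul, Complex.re_ofReal_mul,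
        mul_pow, Real.norm_eq_abs, sq_abs] at this
      nlinarith
    by_contra hne
    rcases lt_or_gt_of_ne hne with hlt | hgt
    · -- take t small negative
      set d := ‖u‖ ^ 2 - (g u).re with hd
      have hd0 : 0 < d := by linarith
      have hN : 0 < ‖u‖ ^ 2 + 1 := by positivity
      have := hk (-(d / (‖u‖ ^ 2 + 1)))
      have h3 : d / (‖u‖ ^ 2 + 1) * (‖u‖ ^ 2 + 1) = d := div_mul_cancel₀ _ hN.ne'
      have h4 : 0 < d / (‖u‖ ^ 2 + 1) := div_pos hd0 hN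
      set r := d / (‖u‖ ^ 2 + 1) with hr
      have h5 : (g u).re = ‖u‖ ^ 2 - d := by rw [hd]; ring
      rw [h5] at this
      -- -2r(‖u‖²-d) ≤ (-2r+r²)‖u‖²  → 2 r d ≤ r² ‖u‖²
      have h6 : 2 * r * d ≤ r ^ 2 * ‖u‖ ^ 2 := by nlinarith
      have h7 : r ^ 2 * ‖u‖ ^ 2 ≤ r * d := by
        have : r ^ 2 * ‖u‖ ^ 2 = r * (r * ‖u‖ ^ 2) := by ring
        rw [this]
        apply mul_le_mul_of_nonneg_left _ h4.le
        nlinarith
      nlinarith [mul_pos h4 hd0]
    · set d := (g u).re - ‖u‖ ^ 2 with hd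
      have hd0 : 0 < d := by linarith
      have hN : 0 < ‖u‖ ^ 2 + 1 := by positivity
      have := hk (d / (‖u‖ ^ 2 + 1))
      have h3 : d / (‖u‖ ^ 2 + 1) * (‖u‖ ^ 2 + 1) = d := div_mul_cancel₀ _ hN.ne'
      have h4 : 0 < d / (‖u‖ ^ 2 + 1) := div_pos hd0 hN
      set r := d / (‖u‖ ^ 2 + 1) with hr
      have h5 : (g u).re = ‖u‖ ^ 2 + d := by rw [hd]; ring
      rw [h5] at this
      have h6 : 2 * r * d ≤ r ^ 2 * ‖u‖ ^ 2 := by nlinarith
      have h7 : r ^ 2 * ‖u‖ ^ 2 ≤ r * d := by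
        have : r ^ 2 * ‖u‖ ^ 2 = r * (r * ‖u‖ ^ 2) := by ring
        rw [this]
        apply mul_le_mul_of_nonneg_left _ h4.le
        nlinarith
      nlinarith [mul_pos h4 hd0]
  have h2 : ∀ v, ‖g v‖ ≤ ‖u‖ * ‖v‖ := by
    intro v
    obtain ⟨c, hc, hcv⟩ : ∃ c : ℂ, ‖c‖ = 1 ∧ c * g v = (‖g v‖ : ℂ) := by
      by_cases h0 : g v = 0
      · exact ⟨1, by simp, by simp [h0]⟩
      · refine ⟨(‖g v‖ : ℂ) / g v, ?_, ?_⟩
        · rw [norm_div, Complex.norm_real, norm_norm, div_self (norm_ne_zero_iff.2 h0)]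
        · field_simp
    have hk : ∀ t : ℝ, 2 * t * ‖g v‖ ≤ t ^ 2 * ‖v‖ ^ 2 + ‖u‖ ^ 2 := by
      intro t
      have := h (((t : ℂ) * c) • v)
      rw [map_sub, map_smul, smul_eq_mul, mul_assoc, hcv, ← Complex.ofReal_mul, Complex.sub_re,
        Complex.ofReal_re, h1, norm_smul, norm_mul, hc, mul_one, Complex.norm_real, mul_pow,
        Real.norm_eq_abs, sq_abs] at this
      nlinarith
    by_cases hv : v = 0
    · simp [hv]
    by_cases hu : u = 0
    · -- 2 t a ≤ t² ‖v‖² for all t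
      by_contra hcon
      push Not at hcon
      rw [hu, norm_zero, zero_mul] at hcon
      have hv0 : 0 < ‖v‖ := norm_pos_iff.2 hv
      have := hk (‖g v‖ / ‖v‖ ^ 2)
      rw [hu, norm_zero] at this
      have h3 : ‖g v‖ / ‖v‖ ^ 2 * ‖v‖ ^ 2 = ‖g v‖ := div_mul_cancel₀ _ (by positivity)
      have h4 : 0 < ‖g v‖ / ‖v‖ ^ 2 := by positivity
      nlinarith [mul_pos h4 hcon]
    · have hv0 : 0 < ‖v‖ := norm_pos_iff.2 hv
      have hu0 : 0 < ‖u‖ := norm_pos_iff.2 hu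
      have := hk (‖u‖ / ‖v‖)
      have h3 : (‖u‖ / ‖v‖) ^ 2 * ‖v‖ ^ 2 = ‖u‖ ^ 2 := by field_simp
      rw [h3] at this
      have h4 : 0 < ‖u‖ / ‖v‖ := by positivity
      have h5 : ‖u‖ / ‖v‖ * ‖g v‖ ≤ ‖u‖ ^ 2 := by nlinarith
      rw [div_mul_eq_mul_div, div_le_iff₀ hv0] at h5
      nlinarith
  refine J_eq hX hJ u g h2 ?_
  have h3 := h2 u
  have h4 : ‖g u‖ ^ 2 = (g u).re ^ 2 + (g u).im ^ 2 := by
    rw [← Complex.normSq_eq_norm_sq, Complex.normSq_apply]; ring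
  have h5 : (g u).im = 0 := by
    have h6 : ‖g u‖ ^ 2 ≤ (‖u‖ ^ 2) ^ 2 := by
      have : ‖g u‖ ≤ ‖u‖ ^ 2 := by rw [sq]; exact h3
      gcongr
    rw [h4, h1] at h6
    have : (g u).im ^ 2 ≤ 0 := by linarith
    nlinarith
  apply Complex.ext
  · rw [h1, Complex.ofReal_re]
  · rw [h5, Complex.ofReal_im]

/-! ### closure properties of the self-adjoint operators -/

theorem SelfAdj.pow {T : X →L[ℂ] X} (hT : SelfAdj J T) (n : ℕ) : SelfAdj J (T ^ n) := by
  induction n with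
  | zero => intro x y; rfl
  | succ n ih =>
    intro x y
    rw [pow_succ']
    change J (T ((T ^ n) x)) y = J x ((T * T ^ n) y)
    rw [hT, ih, ← pow_succ', pow_succ]
    rfl

theorem SelfAdj.mul {S T : X →L[ℂ] X} (hS : SelfAdj J S) (hT : SelfAdj J T) (h : Commute S T) :
    SelfAdj J (S * T) := by
  intro x y
  rw [h.eq]
  change J (T (S x)) y = J x ((T * S) y)
  rw [hT, hS, ← h.eq]
  rfl

theorem SelfAdj.norm_sq {T : X →L[ℂ] X} (hJ : IsDuality J) (hT : SelfAdj J T) (x : X) :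
    (J x ((T * T) x)).re = ‖T x‖ ^ 2 := by
  rw [← J_self_re hJ, hT]
  rfl

theorem SelfAdj.smul (hX : Smooth X) (hJ : IsDuality J) {T : X →L[ℂ] X} (hT : SelfAdj J T)
    (c : ℝ) : SelfAdj J (c • T) := by
  intro x y
  have : (J x).comp (c • T) = J ((c • T) x) := by
    refine J_eq hX hJ _ _ ?_ ?_
    · intro v
      have e1 : (J x).comp (c • T) v = (c : ℂ) * J (T x) v := by
        rw [ContinuousLinearMap.comp_apply, _root_.smul_apply, hT,
          ← Complex.coe_smul, map_smul, smul_eq_mul]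
      rw [e1, norm_mul, Complex.norm_real, _root_.smul_apply, norm_smul, mul_assoc]
      gcongr
      exact J_le hJ _ _
    · have e1 : (J x).comp (c • T) ((c • T) x) = (c : ℂ) * ((c : ℂ) * J (T x) (T x)) := by
        rw [ContinuousLinearMap.comp_apply, _root_.smul_apply,
          _root_.smul_apply, hT, ← Complex.coe_smul, ← Complex.coe_smul, map_smul,
          map_smul, map_smul, smul_eq_mul, smul_eq_mul]
      rw [e1, (hJ (T x)).2, _root_.smul_apply, norm_smul, mul_pow, Real.norm_eq_abs,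
        sq_abs]
      push_cast
      ring
  rw [← this]
  rfl

theorem SelfAdj.of_tendsto (hX : Smooth X) (hJ : IsDuality J) {S : ℕ → X →L[ℂ] X}
    {T : X →L[ℂ] X} (hS : ∀ n, SelfAdj J (S n)) (h : Tendsto S atTop (𝓝 T)) : SelfAdj J T := by
  intro x y
  have hv : ∀ v, Tendsto (fun n => S n v) atTop (𝓝 (T v)) := by
    intro v
    exact ((ContinuousLinearMap.apply ℂ X v).continuous.tendsto T).comp h
  have : (J x).comp T = J (T x) := by
    refine J_eq hX hJ _ _ ?_ ?_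
    · intro v
      have h1 : Tendsto (fun n => ‖J x (S n v)‖) atTop (𝓝 ‖J x (T v)‖) :=
        (((J x).continuous.tendsto _).comp (hv v)).norm
      have h2 : Tendsto (fun n => ‖S n x‖ * ‖v‖) atTop (𝓝 (‖T x‖ * ‖v‖)) :=
        (hv x).norm.mul_const _
      refine le_of_tendsto_of_tendsto' h1 h2 fun n => ?_
      rw [← hS n]
      exact J_le hJ _ _
    · have h1 : Tendsto (fun n => J x (S n (S n x))) atTop (𝓝 (J x (T (T x)))) := by
        refine ((J x).continuous.tendsto _).comp ?_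
        have h3 : Tendsto (fun n => (S n) (S n x)) atTop (𝓝 (T (T x))) := by
          have h4 : Continuous fun p : (X →L[ℂ] X) × X => p.1 p.2 :=
            isBoundedBilinearMap_apply.continuous
          exact (h4.tendsto (T, T x)).comp (h.prodMk_nhds (hv x))
        exact h3
      have h2 : Tendsto (fun n => ((‖S n x‖ ^ 2 : ℝ) : ℂ)) atTop (𝓝 ((‖T x‖ ^ 2 : ℝ) : ℂ)) :=
        (Complex.continuous_ofReal.tendsto _).comp ((hv x).norm.pow 2)
      refine tendsto_nhds_unique h1 (h2.congr fun n => ?_)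
      rw [← (hJ (S n x)).2, hS n]
  rw [← this]
  rfl

/-- The inverse of a self-adjoint operator is self-adjoint. -/
theorem SelfAdj.inv {S T : X →L[ℂ] X} (hS : SelfAdj J S) (h1 : S * T = 1) :
    SelfAdj J T := by
  intro x y
  have e1 : ∀ z, S (T z) = z := fun z => by
    change (S * T) z = z
    rw [h1]; rfl
  have := hS (T x) (T y)
  rw [e1, e1] at this
  exact this.symm

end Q88.SM
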