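import Pool.Agent.Q88.SM.Basic

/-!
If `T` is self-adjoint then `exp (t T ^ 2)` is self-adjoint for all real `t`.
-/

namespace Q88.SM

open Filter Topology Asymptotics

variable {X : Type*} [NormedAddCommGroup X] [NormedSpace ℂ X]
variable {J : X → X →L[ℂ] ℂ}

/-- derivative of the square of the norm along `u' = T T u` -/
theorem deriv_norm_sq (hJ : IsDuality J) {T : X →L[ℂ] X} (hT : SelfAdj J T) (u : ℝ → X) (s : ℝ)
    (hu : HasDerivAt u (T (T (u s))) s) :
    HasDerivAt (fun t => ‖u t‖ ^ 2) (2 * ‖T (u s)‖ ^ 2) s := by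
  have hr := hasDerivAt_iff_isLittleO.1 hu
  rw [hasDerivAt_iff_isLittleO]
  have hc : ContinuousAt u s := hu.continuousAt
  set r : ℝ → X := fun t => u t - u s - (t - s) • T (T (u s)) with hrdef
  -- the error bound
  set η : ℝ → ℝ := fun t => 2 * |‖T (u t)‖ ^ 2 - ‖T (u s)‖ ^ 2| +
    2 * (‖u t‖ * ‖T (T (u t - u s))‖) with hη
  have hη0 : Tendsto η (𝓝 s) (𝓝 0) := by
    have h1 : ContinuousAt (fun t => T (u t)) s := T.continuous.continuousAt.comp hc
    have h2 : ContinuousAt (fun t => T (T (u t - u s))) s :=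
      T.continuous.continuousAt.comp (T.continuous.continuousAt.comp (hc.sub continuousAt_const))
    have h3 : ContinuousAt η s := by
      apply ContinuousAt.add
      · exact continuousAt_const.mul (((h1.norm.pow 2).sub continuousAt_const).abs)
      · exact continuousAt_const.mul (hc.norm.mul h2.norm)
    have h4 : η s = 0 := by simp [hη]
    rw [← h4]
    exact h3
  have hb : ∀ t, ‖‖u t‖ ^ 2 - ‖u s‖ ^ 2 - (t - s) • (2 * ‖T (u s)‖ ^ 2)‖ ≤
      2 * (‖u t‖ + ‖u s‖) * ‖r t‖ + ‖t - s‖ * η t := by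
    intro t
    have e0 : u t - u s = r t + ((t - s : ℝ) : ℂ) • T (T (u s)) := by
      rw [Complex.coe_smul]
      simp [hrdef]
    -- lower bound
    have l1 := sub_ineq hJ (u s) (u t)
    have l2 : (J (u s) (u t - u s)).re = (J (u s) (r t)).re + (t - s) * ‖T (u s)‖ ^ 2 := by
      rw [e0, map_add, map_smul, Complex.add_re, smul_eq_mul, Complex.re_ofReal_mul]
      congr 2
      exact hT.norm_sq hJ (u s)
    have l3 : -(‖u s‖ * ‖r t‖) ≤ (J (u s) (r t)).re := by
      have := (Complex.abs_re_le_norm (J (u s) (r t))).trans (J_le hJ (u s) (r t))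
      exact (abs_le.1 this).1
    -- upper bound
    have m1 := sub_ineq hJ (u t) (u s)
    have m2 : (J (u t) (u s - u t)).re = -((J (u t) (r t)).re + (t - s) * (‖T (u t)‖ ^ 2 -
        (J (u t) (T (T (u t - u s)))).re)) := by
      have e1 : u s - u t = -(r t + ((t - s : ℝ) : ℂ) • T (T (u s))) := by
        rw [← e0]; abel
      have e2 : T (T (u s)) = T (T (u t)) - T (T (u t - u s)) := by
        simp only [map_sub]; abel
      rw [e1, map_neg, Complex.neg_re, map_add, map_smul, Complex.add_re, smul_eq_mul,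
        Complex.re_ofReal_mul]
      congr 3
      rw [e2, map_sub, Complex.sub_re]
      congr 1
      exact hT.norm_sq hJ (u t)
    have m3 : (J (u t) (r t)).re ≤ ‖u t‖ * ‖r t‖ :=
      (Complex.re_le_norm _).trans (J_le hJ (u t) (r t))
    have m4 : |(J (u t) (T (T (u t - u s)))).re| ≤ ‖u t‖ * ‖T (T (u t - u s))‖ :=
      (Complex.abs_re_le_norm _).trans (J_le hJ _ _)
    rw [l2] at l1
    rw [m2] at m1
    have p1 : 0 ≤ ‖t - s‖ * (2 * |‖T (u t)‖ ^ 2 - ‖T (u s)‖ ^ 2|) := by positivity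
    have p2 : 0 ≤ ‖t - s‖ * (2 * (‖u t‖ * ‖T (T (u t - u s))‖)) := by positivity
    have p3 : 0 ≤ ‖u t‖ * ‖r t‖ := by positivity
    have p4 : 0 ≤ ‖u s‖ * ‖r t‖ := by positivity
    have q1 : (t - s) * (‖T (u t)‖ ^ 2 - ‖T (u s)‖ ^ 2) ≤
        ‖t - s‖ * |‖T (u t)‖ ^ 2 - ‖T (u s)‖ ^ 2| := by
      rw [Real.norm_eq_abs, ← abs_mul]
      exact le_abs_self _
    have q2 : -((t - s) * (J (u t) (T (T (u t - u s)))).re) ≤
        ‖t - s‖ * (‖u t‖ * ‖T (T (u t - u s))‖) := by
      refine (neg_le_abs _).trans ?_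
      rw [abs_mul, Real.norm_eq_abs]
      gcongr
    rw [Real.norm_eq_abs, abs_le, smul_eq_mul, hη]
    constructor
    · nlinarith
    · nlinarith
  have ho : (fun t => 2 * (‖u t‖ + ‖u s‖) * ‖r t‖ + ‖t - s‖ * η t) =o[𝓝 s] fun t => t - s := by
    apply IsLittleO.add
    · have h1 : (fun t => 2 * (‖u t‖ + ‖u s‖)) =O[𝓝 s] fun _ => (1 : ℝ) :=
        (continuousAt_const.mul (hc.norm.add continuousAt_const)).norm.isBoundedUnder_le.isBigO_one ℝ
      have h2 := h1.mul_isLittleO hr.norm_left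
      simpa using h2
    · have h1 : η =o[𝓝 s] fun _ => (1 : ℝ) := (isLittleO_one_iff ℝ).2 hη0
      have h2 := (isBigO_refl (fun t : ℝ => t - s) (𝓝 s)).norm_left.mul_isLittleO h1
      simpa using h2
  exact IsLittleO.of_norm_left ((isBigO_of_le _ fun t => (by
    rw [norm_norm]
    exact (hb t).trans (le_abs_self _))).trans_isLittleO ho)

/-- Taylor bound for a sequence with `G n ' = 2 G (n + 1)`. -/
theorem expand (N : ℕ) : ∀ (G : ℕ → ℝ → ℝ), (∀ n s, HasDerivAt (G n) (2 * G (n + 1) s) s) →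
    ∀ (S M : ℝ), (∀ σ ∈ Set.Icc 0 S, |G N σ| ≤ M) → ∀ s ∈ Set.Icc 0 S,
      |G 0 s - ∑ k ∈ Finset.range N, (2 * s) ^ k / k.factorial * G k 0| ≤
        M * (2 * s) ^ N / N.factorial := by
  induction N with
  | zero =>
    intro G hG S M hM s hs
    simpa using hM s hs
  | succ N ih =>
    intro G hG S M hM s hs
    have ih' := ih (fun n => G (n + 1)) (fun n s => hG (n + 1) s) S M hM
    set R : ℝ → ℝ := fun s => G 0 s -
      ∑ k ∈ Finset.range (N + 1), (2 * s) ^ k / k.factorial * G k 0 with hR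
    set R1 : ℝ → ℝ := fun s => G 1 s -
      ∑ k ∈ Finset.range N, (2 * s) ^ k / k.factorial * G (k + 1) 0 with hR1
    have hRd : ∀ s, HasDerivAt R (2 * R1 s) s := by
      intro s
      have h1 : ∀ k : ℕ, HasDerivAt (fun s : ℝ => (2 * s) ^ (k + 1) / (k + 1).factorial *
          G (k + 1) 0) (2 * ((2 * s) ^ k / k.factorial * G (k + 1) 0)) s := by
        intro k
        have h2 : HasDerivAt (fun s : ℝ => (2 * s) ^ (k + 1))
            (((k + 1 : ℕ) : ℝ) * (2 * s) ^ k * 2) s := by
          have h3 : HasDerivAt (fun s : ℝ => 2 * s) 2 s := by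
            simpa using (hasDerivAt_id s).const_mul (2 : ℝ)
          exact h3.fun_pow (k + 1)
        have h4 := (h2.div_const ((k + 1).factorial : ℝ)).mul_const (G (k + 1) 0)
        refine h4.congr_deriv ?_
        rw [Nat.factorial_succ]
        have : (k.factorial : ℝ) ≠ 0 := by positivity
        push_cast
        field_simp
      have h5 : HasDerivAt (fun s : ℝ => ∑ k ∈ Finset.range (N + 1),
          (2 * s) ^ k / k.factorial * G k 0)
          (∑ k ∈ Finset.range N, 2 * ((2 * s) ^ k / k.factorial * G (k + 1) 0)) s := by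
        have h6 := HasDerivAt.fun_sum (u := Finset.range N) (fun k _ => h1 k)
        have h7 := h6.add_const (G 0 0)
        refine h7.congr_of_eventuallyEq (Eventually.of_forall fun t => ?_)
        change ∑ k ∈ Finset.range (N + 1), (2 * t) ^ k / k.factorial * G k 0 = _
        rw [Finset.sum_range_succ']
        simp
      have h8 := (hG 0 s).fun_sub h5
      refine h8.congr_deriv ?_
      rw [hR1, ← Finset.mul_sum]
      ring
    have hB : ∀ s, HasDerivAt (fun s : ℝ => M * (2 * s) ^ (N + 1) / (N + 1).factorial)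
        (2 * (M * (2 * s) ^ N / N.factorial)) s := by
      intro s
      have h2 : HasDerivAt (fun s : ℝ => (2 * s) ^ (N + 1))
          (((N + 1 : ℕ) : ℝ) * (2 * s) ^ N * 2) s := by
        have h3 : HasDerivAt (fun s : ℝ => 2 * s) 2 s := by
          simpa using (hasDerivAt_id s).const_mul (2 : ℝ)
        exact h3.fun_pow (N + 1)
      have h4 := (h2.const_mul M).div_const ((N + 1).factorial : ℝ)
      refine h4.congr_deriv ?_
      rw [Nat.factorial_succ]
      have : (N.factorial : ℝ) ≠ 0 := by positivity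
      push_cast
      field_simp
    have h9 := image_norm_le_of_norm_deriv_right_le_deriv_boundary (a := 0) (b := S) (f := R)
      (f' := fun s => 2 * R1 s) (B := fun s : ℝ => M * (2 * s) ^ (N + 1) / (N + 1).factorial)
      (B' := fun s => 2 * (M * (2 * s) ^ N / N.factorial))
      (fun x _ => (hRd x).continuousAt.continuousWithinAt)
      (fun x _ => (hRd x).hasDerivWithinAt)
      (by
        change ‖R 0‖ ≤ M * (2 * 0) ^ (N + 1) / (N + 1).factorial
        rw [hR]
        simp [Finset.sum_range_succ'])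
      (fun x => hB x)
      (by
        intro x hx
        rw [norm_mul, Real.norm_of_nonneg (by norm_num : (0 : ℝ) ≤ 2), Real.norm_eq_abs]
        exact mul_le_mul_of_nonneg_left (ih' x ⟨hx.1, hx.2.le⟩) (by norm_num))
    exact h9 hs

theorem norm_pow_apply_le (T : X →L[ℂ] X) (n : ℕ) (v : X) : ‖(T ^ n) v‖ ≤ ‖T‖ ^ n * ‖v‖ := by
  induction n with
  | zero => simp
  | succ n ih =>
    rw [pow_succ']
    change ‖T ((T ^ n) v)‖ ≤ _
    refine (T.le_opNorm _).trans ?_
    rw [pow_succ', mul_assoc]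
    gcongr

variable [CompleteSpace X]

open NormedSpace

noncomputable instance : NormedAlgebra ℚ (X →L[ℂ] X) := NormedAlgebra.restrictScalars ℚ ℂ _

theorem hasDerivAt_exp_apply (A : X →L[ℂ] X) (x : X) (s : ℝ) :
    HasDerivAt (fun t : ℝ => (exp (t • A)) x) (A ((exp (s • A)) x)) s := by
  have h1 : HasDerivAt (fun t : ℝ => exp (t • A)) (A * exp (s • A)) s :=
    hasDerivAt_exp_smul_const' (𝕂 := ℝ) A s
  have h2 := (ContinuousLinearMap.apply ℂ X x).restrictScalars ℝ |>.hasFDerivAt.comp_hasDerivAt s h1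
  exact h2

theorem hasSum_norm_sq (hJ : IsDuality J) {T : X →L[ℂ] X} (hT : SelfAdj J T) (x : X) {s : ℝ}
    (hs : 0 ≤ s) :
    HasSum (fun k : ℕ => (2 * s) ^ k / k.factorial * ‖(T ^ k) x‖ ^ 2)
      (‖(exp (s • (T * T))) x‖ ^ 2) := by
  set A := T * T with hA
  set G : ℕ → ℝ → ℝ := fun n t => ‖(T ^ n) ((exp (t • A)) x)‖ ^ 2 with hG
  have hGd : ∀ n t, HasDerivAt (G n) (2 * G (n + 1) t) t := by
    intro n t
    have h1 : HasDerivAt (fun t : ℝ => (T ^ n) ((exp (t • A)) x))
        (T (T ((T ^ n) ((exp (t • A)) x)))) t := by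
      have h2 := ((T ^ n).restrictScalars ℝ).hasFDerivAt.comp_hasDerivAt t
        (hasDerivAt_exp_apply A x t)
      refine h2.congr_deriv ?_
      change (T ^ n * (T * T)) _ = (T * T * T ^ n) _
      congr 1
      rw [← pow_two, ← pow_add, ← pow_add, add_comm]
    have h3 := deriv_norm_sq hJ hT _ t h1
    have e1 : (T ^ (n + 1)) ((exp (t • A)) x) = T ((T ^ n) ((exp (t • A)) x)) := by
      rw [pow_succ']; rfl
    rw [hG]
    simp only
    rw [e1]
    exact h3
  have hbd : ∃ C : ℝ, 0 ≤ C ∧ ∀ N : ℕ, ∀ σ ∈ Set.Icc 0 s, |G N σ| ≤ C * (‖T‖ ^ 2) ^ N := by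
    have hcont : Continuous fun t : ℝ => ‖(exp (t • A)) x‖ :=
      (continuous_iff_continuousAt.2 fun t => (hasDerivAt_exp_apply A x t).continuousAt).norm
    obtain ⟨K, hK⟩ := (isCompact_Icc (a := (0 : ℝ)) (b := s)).exists_bound_of_continuousOn
      hcont.continuousOn
    refine ⟨K ^ 2, sq_nonneg _, fun N σ hσ => ?_⟩
    have h1 : ‖(exp (σ • A)) x‖ ≤ K := by simpa using hK σ hσ
    rw [hG]
    simp only
    rw [abs_of_nonneg (sq_nonneg _)]
    have h2 : ‖(T ^ N) ((exp (σ • A)) x)‖ ≤ ‖T‖ ^ N * K := by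
      refine (norm_pow_apply_le T N _).trans ?_
      gcongr
    calc ‖(T ^ N) ((exp (σ • A)) x)‖ ^ 2 ≤ (‖T‖ ^ N * K) ^ 2 := by gcongr
      _ = K ^ 2 * (‖T‖ ^ 2) ^ N := by rw [mul_pow, ← pow_mul, ← pow_mul, mul_comm N 2]; ring
  obtain ⟨C, hC0, hC⟩ := hbd
  have h0 : G 0 s = ‖(exp (s • A)) x‖ ^ 2 := rfl
  have hk0 : ∀ k, G k 0 = ‖(T ^ k) x‖ ^ 2 := by
    intro k
    simp [hG, NormedSpace.exp_zero]
  have hb : ∀ N, |G 0 s - ∑ k ∈ Finset.range N, (2 * s) ^ k / k.factorial * G k 0| ≤
      C * ((2 * s * ‖T‖ ^ 2) ^ N / N.factorial) := by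
    intro N
    have := expand N G hGd s _ (hC N) s ⟨hs, le_refl _⟩
    refine this.trans (le_of_eq ?_)
    rw [mul_pow (2 * s)]
    ring
  rw [hasSum_iff_tendsto_nat_of_nonneg (fun k => by positivity)]
  rw [← h0]
  have h1 : Tendsto (fun N => C * ((2 * s * ‖T‖ ^ 2) ^ N / N.factorial)) atTop (𝓝 (C * 0)) :=
    (FloorSemiring.tendsto_pow_div_factorial_atTop _).const_mul _
  rw [mul_zero] at h1
  rw [tendsto_iff_norm_sub_tendsto_zero]
  refine squeeze_zero (fun _ => norm_nonneg _) (fun N => ?_) h1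
  rw [norm_sub_rev, Real.norm_eq_abs]
  have := hb N
  simp only [hk0] at this
  exact this

theorem exp_nonneg (hX : Smooth X) (hJ : IsDuality J) {T : X →L[ℂ] X} (hT : SelfAdj J T) {s : ℝ}
    (hs : 0 ≤ s) : SelfAdj J (exp (s • (T * T))) := by
  set A := T * T with hA
  have hE : ∀ a b : ℝ, exp (a • A) * exp (b • A) = exp ((a + b) • A) := by
    intro a b
    rw [add_smul, exp_add_of_commute]
    exact ((Commute.refl A).smul_left a).smul_right b
  have hin : ∀ w : X, (exp (s • A)) ((exp ((-s) • A)) w) = w := by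
    intro w
    change (exp (s • A) * exp ((-s) • A)) w = w
    rw [hE, add_neg_cancel, zero_smul, NormedSpace.exp_zero]
    rfl
  intro x y
  have key : (J x).comp (exp (s • A)) = J ((exp (s • A)) x) := by
    refine J_of_sub hX hJ _ _ fun w => ?_
    set z := (exp ((-s) • A)) w with hz
    have hzw : (exp (s • A)) z = w := hin w
    have h1 := hasSum_norm_sq hJ hT z hs
    have h2 := hasSum_norm_sq hJ hT x hs
    rw [← hA, hzw] at h1
    rw [← hA] at h2
    have h3 : HasSum (fun k : ℕ => (2 * s) ^ k / k.factorial * (J x ((A ^ k) (z - x))).re)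
        ((J x ((exp ((2 * s) • A)) (z - x))).re) := by
      have h4 := exp_series_hasSum_exp' (𝕂 := ℝ) ((2 * s) • A)
      have h5 := h4.mapL ((ContinuousLinearMap.apply ℂ X (z - x)).restrictScalars ℝ)
      have h6 := h5.mapL ((J x).restrictScalars ℝ)
      have h7 := h6.mapL Complex.reCLM
      have e3 : ∀ k : ℕ, (2 * s) ^ k / k.factorial * (J x ((A ^ k) (z - x))).re =
          Complex.reCLM ((J x) ((((k.factorial : ℝ))⁻¹ • ((2 * s) • A) ^ k) (z - x))) := by
        intro k
        rw [smul_pow, smul_smul, _root_.smul_apply, ← Complex.coe_smul, map_smul, smul_eq_mul]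
        change _ = ((_ : ℂ) * _).re
        rw [Complex.re_ofReal_mul]
        ring
      rw [show (fun k : ℕ => (2 * s) ^ k / k.factorial * (J x ((A ^ k) (z - x))).re) = _ from
        funext e3]
      exact h7
    have h8 : HasSum (fun k : ℕ => (2 * s) ^ k / k.factorial * ‖(T ^ k) x‖ ^ 2 +
        2 * ((2 * s) ^ k / k.factorial * (J x ((A ^ k) (z - x))).re))
        (‖(exp (s • A)) x‖ ^ 2 + 2 * (J x ((exp ((2 * s) • A)) (z - x))).re) :=
      h2.add (h3.mul_left 2)
    have h9 := hasSum_le (fun k => ?_) h8 h1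
    · have e1 : (J x).comp (exp (s • A)) (w - (exp (s • A)) x) =
          J x ((exp ((2 * s) • A)) (z - x)) := by
        have e2 : w - (exp (s • A)) x = (exp (s • A)) (z - x) := by
          rw [map_sub, hzw]
        rw [e2, two_mul, ← hE]
        rfl
      rw [e1]
      exact h9
    · have h10 := sub_ineq hJ ((T ^ k) x) ((T ^ k) z)
      have h11 : J ((T ^ k) x) ((T ^ k) z - (T ^ k) x) = J x ((A ^ k) (z - x)) := by
        rw [← map_sub, hT.pow k]
        congr 1
        change (T ^ k * T ^ k) _ = _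
        rw [hA, ← pow_two, ← pow_two, ← pow_mul, ← pow_mul, mul_comm]
      rw [h11] at h10
      have h12 : 0 ≤ (2 * s) ^ k / (k.factorial : ℝ) := by positivity
      nlinarith
  rw [← key]
  rfl

/-- `exp (t T ^ 2)` is self-adjoint for all real `t`. -/
theorem exp_real (hX : Smooth X) (hJ : IsDuality J) {T : X →L[ℂ] X} (hT : SelfAdj J T) (t : ℝ) :
    SelfAdj J (exp (t • (T * T))) := by
  rcases le_total 0 t with h | h
  · exact exp_nonneg hX hJ hT h
  · have h1 := exp_nonneg hX hJ hT (s := -t) (by linarith)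
    refine h1.inv ?_
    rw [← exp_add_of_commute (((Commute.refl _).smul_left _).smul_right _), ← add_smul,
      neg_add_cancel, zero_smul, NormedSpace.exp_zero]

end Q88.SM
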