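import Pool.Agent.Q88.SM.Exp

/-!
`γ - T ^ 2` is the square of a self-adjoint operator for `γ ≥ ‖T‖ ^ 2`.
-/

namespace Q88.SM

open Filter Topology NormedSpace

section Log

variable {𝔸 : Type*} [NormedRing 𝔸] [NormedAlgebra ℝ 𝔸] [NormedAlgebra ℚ 𝔸] [CompleteSpace 𝔸]

omit [NormedAlgebra ℝ 𝔸] [NormedAlgebra ℚ 𝔸] [CompleteSpace 𝔸] in
theorem comm_hasSum {f g : ℕ → 𝔸} {F G : 𝔸} (hF : HasSum f F) (hG : HasSum g G)
    (h : ∀ i j, Commute (f i) (g j)) : Commute F G := by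
  have h1 : ∀ i, Commute (f i) G := by
    intro i
    have e1 := hG.mul_left (f i)
    have e2 := hG.mul_right (f i)
    have e3 : (fun j => f i * g j) = fun j => g j * f i := funext fun j => (h i j).eq
    rw [e3] at e1
    exact e1.unique e2
  have e1 := hF.mul_right G
  have e2 := hF.mul_left G
  have e3 : (fun i => f i * G) = fun i => G * f i := funext fun i => (h1 i).eq
  rw [e3] at e1
  exact e1.unique e2

theorem exp_neg_log (a : 𝔸) (ha : ‖a‖ < 1) :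
    ∃ L : 𝔸, HasSum (fun k : ℕ => ((k + 1 : ℕ) : ℝ)⁻¹ • a ^ (k + 1)) L ∧ exp (-L) = 1 - a := by
  obtain ⟨ρ, hρ1, hρ⟩ : ∃ ρ : ℝ, 1 < ρ ∧ ρ * ‖a‖ < 1 := by
    by_cases h0 : ‖a‖ = 0
    · exact ⟨2, by norm_num, by rw [h0]; norm_num⟩
    · have h1 : 0 < ‖a‖ := lt_of_le_of_ne (norm_nonneg _) (Ne.symm h0)
      have h2 : 1 < ‖a‖⁻¹ := (one_lt_inv₀ h1).2 ha
      obtain ⟨ρ, h3, h4⟩ := exists_between h2
      refine ⟨ρ, h3, ?_⟩
      calc ρ * ‖a‖ < ‖a‖⁻¹ * ‖a‖ := by gcongr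
        _ = 1 := inv_mul_cancel₀ h0
  have hρ0 : 0 < ρ := by linarith
  set g : ℕ → ℝ → 𝔸 := fun k t => (t ^ (k + 1) * ((k + 1 : ℕ) : ℝ)⁻¹) • a ^ (k + 1) with hg
  set g' : ℕ → ℝ → 𝔸 := fun k t => (t ^ k) • a ^ (k + 1) with hg'
  set u : ℕ → ℝ := fun k => ‖a‖ * (ρ * ‖a‖) ^ k with hu
  have hus : Summable u := (summable_geometric_of_lt_one (by positivity) hρ).mul_left _
  have hgd : ∀ k t, HasDerivAt (g k) (g' k t) t := by
    intro k t
    have h1 : HasDerivAt (fun t : ℝ => t ^ (k + 1) * ((k + 1 : ℕ) : ℝ)⁻¹) (t ^ k) t := by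
      have := (hasDerivAt_pow (k + 1) t).mul_const (((k + 1 : ℕ) : ℝ)⁻¹)
      refine this.congr_deriv ?_
      have h2 : ((k + 1 : ℕ) : ℝ) ≠ 0 := by positivity
      simp only [Nat.add_sub_cancel]
      field_simp
    exact h1.smul_const _
  have hgb : ∀ k t, t ∈ Metric.ball (0 : ℝ) ρ → ‖g' k t‖ ≤ u k := by
    intro k t ht
    have ht' : |t| ≤ ρ := by
      have := mem_ball_zero_iff.1 ht
      rw [Real.norm_eq_abs] at this
      exact this.le
    rw [hg', hu]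
    simp only
    rw [norm_smul, norm_pow, Real.norm_eq_abs]
    calc |t| ^ k * ‖a ^ (k + 1)‖ ≤ ρ ^ k * ‖a‖ ^ (k + 1) := by
          gcongr
          exact norm_pow_le' a (Nat.succ_pos k)
      _ = ‖a‖ * (ρ * ‖a‖) ^ k := by rw [mul_pow, pow_succ]; ring
  have hg0 : ∀ k, g k 0 = 0 := by
    intro k
    simp [hg]
  have hd : ∀ t ∈ Metric.ball (0 : ℝ) ρ,
      HasDerivAt (fun z => ∑' k, g k z) (∑' k, g' k t) t := by
    intro t ht
    exact hasDerivAt_tsum_of_isPreconnected hus Metric.isOpen_ball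
      (convex_ball _ _).isPreconnected (fun k y _ => hgd k y) hgb
      (Metric.mem_ball_self hρ0) (by simp only [hg0]; exact summable_zero) ht
  have hsum : ∀ t ∈ Metric.ball (0 : ℝ) ρ, Summable fun k => g k t := by
    intro t ht
    have ht' : |t| ≤ ρ := by
      have := mem_ball_zero_iff.1 ht
      rw [Real.norm_eq_abs] at this
      exact this.le
    refine Summable.of_norm_bounded (g := fun k => ρ * u k) (hus.mul_left _) fun k => ?_
    rw [hg, hu]
    simp only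
    rw [norm_smul, norm_mul, norm_pow, Real.norm_eq_abs]
    have h1 : ‖(((k + 1 : ℕ) : ℝ)⁻¹)‖ ≤ 1 := by
      rw [norm_inv, Real.norm_natCast]
      exact inv_le_one_of_one_le₀ (by exact_mod_cast Nat.succ_pos k)
    calc |t| ^ (k + 1) * ‖(((k + 1 : ℕ) : ℝ)⁻¹)‖ * ‖a ^ (k + 1)‖
        ≤ ρ ^ (k + 1) * 1 * ‖a‖ ^ (k + 1) := by
          gcongr
          exact norm_pow_le' a (Nat.succ_pos k)
      _ = ρ * (‖a‖ * (ρ * ‖a‖) ^ k) := by rw [mul_pow, pow_succ, pow_succ]; ring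
  set ℓ : ℝ → 𝔸 := fun z => ∑' k, g k z with hℓ
  have hcomm : ∀ s ∈ Metric.ball (0 : ℝ) ρ, ∀ t ∈ Metric.ball (0 : ℝ) ρ,
      Commute (ℓ s) (ℓ t) := by
    intro s hs t ht
    refine comm_hasSum (hsum s hs).hasSum (hsum t ht).hasSum fun i j => ?_
    exact (((Commute.refl a).pow_pow _ _).smul_left _).smul_right _
  -- derivative of exp ∘ ℓ
  have hexp : ∀ t ∈ Metric.ball (0 : ℝ) ρ,
      HasDerivAt (fun s => exp (ℓ s)) (exp (ℓ t) * ∑' k, g' k t) t := by
    intro t ht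
    have h1 : HasDerivAt (fun s => ℓ s - ℓ t) (∑' k, g' k t) t := (hd t ht).sub_const _
    have h2 : HasDerivAt (fun s => exp (ℓ s - ℓ t)) (∑' k, g' k t) t := by
      have h3 : HasFDerivAt (exp : 𝔸 → 𝔸) (1 : 𝔸 →L[ℝ] 𝔸) (ℓ t - ℓ t) := by
        rw [sub_self]
        exact hasFDerivAt_exp_zero
      have h4 := h3.comp_hasDerivAt t h1
      exact h4
    have h3 := h2.const_mul (exp (ℓ t))
    refine h3.congr_of_eventuallyEq ?_
    filter_upwards [Metric.isOpen_ball.mem_nhds ht] with s hs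
    rw [← exp_add_of_commute]
    · congr 1; abel
    · exact (hcomm t ht s hs).sub_right (Commute.refl _)
  have hgeo : ∀ t ∈ Metric.ball (0 : ℝ) ρ, (∑' k, g' k t) * (1 - t • a) = a := by
    intro t ht
    have ht' : |t| < ρ := by
      have := mem_ball_zero_iff.1 ht
      rwa [Real.norm_eq_abs] at this
    have h1 : ‖t • a‖ < 1 := by
      rw [norm_smul, Real.norm_eq_abs]
      calc |t| * ‖a‖ ≤ ρ * ‖a‖ := by gcongr
        _ < 1 := hρ
    have h2 : ∀ k, g' k t = a * (t • a) ^ k := by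
      intro k
      rw [hg', smul_pow, mul_smul_comm, ← pow_succ']
    simp only [h2]
    rw [(summable_geometric_of_norm_lt_one h1).tsum_mul_left, mul_assoc,
      geom_series_mul_neg _ h1, mul_one]
  have hF : ∀ t ∈ Metric.ball (0 : ℝ) ρ,
      HasDerivAt (fun s => exp (ℓ s) * (1 - s • a)) 0 t := by
    intro t ht
    have h1 : HasDerivAt (fun s : ℝ => 1 - s • a) (-a) t := by
      have := ((hasDerivAt_id t).smul_const a).const_sub (1 : 𝔸)
      simpa using this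
    have h2 := (hexp t ht).fun_mul h1
    refine h2.congr_deriv ?_
    rw [mul_assoc, hgeo t ht]
    simp
  have hF1 : exp (ℓ 1) * (1 - (1 : ℝ) • a) = exp (ℓ 0) * (1 - (0 : ℝ) • a) := by
    have h1 : (1 : ℝ) ∈ Metric.ball (0 : ℝ) ρ := by simpa using hρ1
    have h0 : (0 : ℝ) ∈ Metric.ball (0 : ℝ) ρ := Metric.mem_ball_self hρ0
    exact (Metric.isOpen_ball.is_const_of_deriv_eq_zero (f := fun s => exp (ℓ s) * (1 - s • a))
      (convex_ball _ _).isPreconnected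
      (fun t ht => (hF t ht).differentiableAt.differentiableWithinAt)
      (fun t ht => (hF t ht).deriv) h1 h0)
  have hℓ0 : ℓ 0 = 0 := by
    rw [hℓ]
    simp only [hg0, tsum_zero]
  rw [hℓ0, NormedSpace.exp_zero, one_smul, zero_smul, sub_zero, mul_one] at hF1
  have h1 : (1 : ℝ) ∈ Metric.ball (0 : ℝ) ρ := by simpa using hρ1
  refine ⟨ℓ 1, ?_, ?_⟩
  · have h3 : HasSum (fun k => g k 1) (ℓ 1) := (hsum 1 h1).hasSum
    have h4 : ∀ k : ℕ, ((k + 1 : ℕ) : ℝ)⁻¹ • a ^ (k + 1) = g k 1 := by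
      intro k
      rw [hg]
      simp only [one_pow, one_mul]
    rw [show (fun k : ℕ => ((k + 1 : ℕ) : ℝ)⁻¹ • a ^ (k + 1)) = _ from funext h4]
    exact h3
  · have h2 : exp (-ℓ 1) * exp (ℓ 1) = 1 := by
      rw [← exp_add_of_commute (Commute.refl _).neg_left, neg_add_cancel, NormedSpace.exp_zero]
    calc exp (-ℓ 1) = exp (-ℓ 1) * (exp (ℓ 1) * (1 - a)) := by rw [hF1, mul_one]
      _ = 1 - a := by rw [← mul_assoc, h2, one_mul]

end Log

variable {X : Type*} [NormedAddCommGroup X] [NormedSpace ℂ X] [CompleteSpace X]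
variable {J : X → X →L[ℂ] ℂ}

theorem exp_hasSum (hX : Smooth X) (hJ : IsDuality J) {T : X →L[ℂ] X} (hT : SelfAdj J T)
    (c : ℕ → ℝ) (B : X →L[ℂ] X) (hB : HasSum (fun k => c k • (T * T) ^ (k + 1)) B) :
    SelfAdj J (exp B) := by
  set A := T * T with hA
  have h1 : ∀ N, SelfAdj J (exp (∑ k ∈ Finset.range N, c k • A ^ (k + 1))) := by
    intro N
    induction N with
    | zero =>
      intro x y
      simp [NormedSpace.exp_zero]
    | succ N ih =>
      have hAc : Commute (∑ k ∈ Finset.range N, c k • A ^ (k + 1)) (c N • A ^ (N + 1)) := by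
        apply Commute.sum_left
        intro i _
        exact (((Commute.refl A).pow_pow _ _).smul_left _).smul_right _
      rw [Finset.sum_range_succ, exp_add_of_commute hAc]
      refine SelfAdj.mul ih ?_ ?_
      · have h2 := exp_real hX hJ (hT.pow (N + 1)) (c N)
        have h3 : A ^ (N + 1) = T ^ (N + 1) * T ^ (N + 1) := by
          rw [hA, ← pow_two, ← pow_two, ← pow_mul, ← pow_mul, mul_comm]
        rw [h3]
        exact h2
      · exact (hAc.exp_left).exp_right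
  refine SelfAdj.of_tendsto hX hJ h1 ?_
  exact (exp_continuous.tendsto B).comp hB.tendsto_sum_nat

omit [CompleteSpace X] in
theorem norm_le_of_sq {S : X →L[ℂ] X} {c : ℝ} (hc : 0 ≤ c)
    (h : ∀ x, ‖S x‖ ^ 2 ≤ c * ‖x‖ ^ 2) : ‖S‖ ^ 2 ≤ c := by
  have h1 : ‖S‖ ≤ √c := by
    refine S.opNorm_le_bound (Real.sqrt_nonneg _) fun x => ?_
    refine le_of_sq_le_sq (?_ : ‖S x‖ ^ 2 ≤ (√c * ‖x‖) ^ 2) (by positivity)
    rw [mul_pow, Real.sq_sqrt hc]
    exact h x
  calc ‖S‖ ^ 2 ≤ √c ^ 2 := by gcongr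
    _ = c := Real.sq_sqrt hc

/-- For `γ ≥ ‖T‖ ^ 2` the operator `γ - T ^ 2` is the square of a self-adjoint operator. -/
theorem exists_sqrt (hX : Smooth X) (hJ : IsDuality J) {T : X →L[ℂ] X} (hT : SelfAdj J T)
    {γ : ℝ} (hγ : ‖T‖ ^ 2 ≤ γ) :
    ∃ S : X →L[ℂ] X, SelfAdj J S ∧ S * S = γ • (1 : X →L[ℂ] X) - T * T := by
  set A := T * T with hA
  have hγ0 : 0 ≤ γ := (sq_nonneg _).trans hγ
  have hAn : ‖A‖ ≤ γ := by
    refine (norm_mul_le T T).trans ?_
    rw [← sq]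
    exact hγ
  set β : ℕ → ℝ := fun n => γ + 1 / (n + 1) with hβ
  have hβγ : ∀ n, γ < β n := fun n => by
    have : (0 : ℝ) < 1 / (n + 1) := by positivity
    simp only [hβ]; linarith
  have hβ0 : ∀ n, 0 < β n := fun n => hγ0.trans_lt (hβγ n)
  have ha : ∀ n, ‖(β n)⁻¹ • A‖ < 1 := by
    intro n
    rw [norm_smul, norm_inv, Real.norm_of_nonneg (hβ0 n).le, inv_mul_lt_iff₀ (hβ0 n), mul_one]
    exact hAn.trans_lt (hβγ n)
  choose L hL1 hL2 using fun n => exp_neg_log ((β n)⁻¹ • A) (ha n)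
  have hL3 : ∀ n, HasSum (fun k : ℕ => (((k + 1 : ℕ) : ℝ)⁻¹ * ((β n)⁻¹) ^ (k + 1)) • A ^ (k + 1))
      (L n) := by
    intro n
    have h1 := hL1 n
    simp only [smul_pow, smul_smul] at h1
    exact h1
  have hLc : ∀ n m, Commute (L n) (L m) := by
    intro n m
    refine comm_hasSum (hL3 n) (hL3 m) fun i j => ?_
    exact (((Commute.refl A).pow_pow _ _).smul_left _).smul_right _
  have hexp : ∀ (n m : ℕ) (a b : ℝ), SelfAdj J (exp (a • L n + b • L m)) := by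
    intro n m a b
    refine exp_hasSum hX hJ hT (fun k => a * (((k + 1 : ℕ) : ℝ)⁻¹ * ((β n)⁻¹) ^ (k + 1)) +
      b * (((k + 1 : ℕ) : ℝ)⁻¹ * ((β m)⁻¹) ^ (k + 1))) _ ?_
    have h1 := ((hL3 n).const_smul a).add ((hL3 m).const_smul b)
    simp only [smul_smul, ← add_smul] at h1
    exact h1
  have hexpc : ∀ (n m : ℕ) (a b : ℝ), Commute (exp (a • L n)) (exp (b • L m)) := by
    intro n m a b
    exact ((((hLc n m).smul_left a).smul_right b).exp_left).exp_right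
  set S : ℕ → X →L[ℂ] X := fun n => √(β n) • exp ((-(1 / 2) : ℝ) • L n) with hS
  have hSsa : ∀ n, SelfAdj J (S n) := by
    intro n
    have h1 := hexp n n (-(1 / 2)) 0
    rw [zero_smul, add_zero] at h1
    exact h1.smul hX hJ _
  have hSS : ∀ n, S n * S n = β n • (1 : X →L[ℂ] X) - A := by
    intro n
    rw [hS]
    simp only
    rw [smul_mul_smul_comm, Real.mul_self_sqrt (hβ0 n).le, ← exp_add_of_commute (Commute.refl _),
      ← add_smul]
    have h1 : (-(1 / 2) + -(1 / 2) : ℝ) = -1 := by norm_num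
    rw [h1, neg_smul, one_smul, hL2 n, smul_sub, smul_smul, mul_inv_cancel₀ (hβ0 n).ne', one_smul]
  have hScomm : ∀ n m, Commute (S n) (S m) := by
    intro n m
    exact ((hexpc n m _ _).smul_left _).smul_right _
  have hpos : ∀ n m x, 0 ≤ (J x ((S n * S m) x)).re := by
    intro n m x
    set R : X →L[ℂ] X := √(√(β n) * √(β m)) •
      exp ((-(1 / 4) : ℝ) • L n + (-(1 / 4) : ℝ) • L m) with hR
    have hRsa : SelfAdj J R := (hexp n m _ _).smul hX hJ _
    have hRR : R * R = S n * S m := by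
      rw [hR, hS]
      simp only
      rw [smul_mul_smul_comm, Real.mul_self_sqrt (by positivity),
        ← exp_add_of_commute (Commute.refl _), smul_mul_smul_comm,
        ← exp_add_of_commute (((hLc n m).smul_left _).smul_right _)]
      congr 2
      module
    rw [← hRR, hRsa.norm_sq hJ]
    positivity
  have hlow : ∀ n m x, ‖S n x‖ ≤ ‖(S n + S m) x‖ := by
    intro n m x
    have h1 : (J (S n x) ((S n + S m) x)).re = ‖S n x‖ ^ 2 + (J x ((S n * S m) x)).re := by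
      rw [_root_.add_apply, map_add, Complex.add_re, J_self_re hJ, hSsa n x (S m x)]
      rfl
    have h2 := (Complex.re_le_norm _).trans (J_le hJ (S n x) ((S n + S m) x))
    rw [h1] at h2
    have h3 := hpos n m x
    by_cases h0 : ‖S n x‖ = 0
    · rw [h0]; positivity
    · have h4 : 0 < ‖S n x‖ := lt_of_le_of_ne (norm_nonneg _) (Ne.symm h0)
      nlinarith
  have hlow2 : ∀ n x, (β n - γ) * ‖x‖ ^ 2 ≤ ‖S n x‖ ^ 2 := by
    intro n x
    rw [← (hSsa n).norm_sq hJ, hSS n, _root_.sub_apply, map_sub, Complex.sub_re,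
      hA, hT.norm_sq hJ]
    have h1 : (J x ((β n • (1 : X →L[ℂ] X)) x)).re = β n * ‖x‖ ^ 2 := by
      rw [_root_.smul_apply, one_apply_eq_self, ← Complex.coe_smul, map_smul,
        smul_eq_mul, Complex.re_ofReal_mul, J_self_re hJ]
    rw [h1]
    have h2 : ‖T x‖ ^ 2 ≤ γ * ‖x‖ ^ 2 := by
      calc ‖T x‖ ^ 2 ≤ (‖T‖ * ‖x‖) ^ 2 := by
            gcongr
            exact T.le_opNorm x
        _ = ‖T‖ ^ 2 * ‖x‖ ^ 2 := mul_pow _ _ _
        _ ≤ γ * ‖x‖ ^ 2 := by gcongr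
    linarith
  have hdist : ∀ n m, n ≤ m → ‖S n - S m‖ ≤ √(1 / (n + 1)) := by
    intro n m hnm
    refine ContinuousLinearMap.opNorm_le_bound _ (Real.sqrt_nonneg _) fun x => ?_
    set z := (S n - S m) x with hz
    have hβnm : β n - γ = 1 / ((n : ℝ) + 1) := by simp [hβ]
    have hd0 : (0 : ℝ) < 1 / ((n : ℝ) + 1) := by positivity
    have h1 : (S n + S m) z = (β n - β m) • x := by
      have h2 : (S n + S m) * (S n - S m) = (β n - β m) • (1 : X →L[ℂ] X) := by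
        have h3 : (S n + S m) * (S n - S m) = S n * S n - S m * S m := by
          have := (hScomm n m).eq
          rw [mul_sub, add_mul, add_mul, this]
          abel
        rw [h3, hSS, hSS]
        module
      have := congrArg (fun U : X →L[ℂ] X => U x) h2
      exact this
    have h2 := hlow n m z
    have h3 := hlow2 n z
    rw [h1, norm_smul, Real.norm_eq_abs] at h2
    rw [hβnm] at h3
    have h4 : |β n - β m| ≤ 1 / ((n : ℝ) + 1) := by
      have h5 : (0 : ℝ) < 1 / ((m : ℝ) + 1) := by positivity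
      have h6 : 1 / ((m : ℝ) + 1) ≤ 1 / ((n : ℝ) + 1) := by
        apply one_div_le_one_div_of_le (by positivity)
        have : (n : ℝ) ≤ m := by exact_mod_cast hnm
        linarith
      rw [abs_le]
      simp only [hβ]
      constructor <;> linarith
    set d : ℝ := 1 / ((n : ℝ) + 1) with hd
    have h7 : ‖S n z‖ ≤ d * ‖x‖ := h2.trans (by gcongr)
    have h8 : d * ‖z‖ ^ 2 ≤ (d * ‖x‖) ^ 2 := h3.trans (by gcongr)
    have h9 : ‖z‖ ^ 2 ≤ d * ‖x‖ ^ 2 := by
      have : d * ‖z‖ ^ 2 ≤ d * (d * ‖x‖ ^ 2) := by nlinarith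
      exact le_of_mul_le_mul_left this hd0
    refine le_of_sq_le_sq (?_ : ‖z‖ ^ 2 ≤ (√d * ‖x‖) ^ 2) (by positivity)
    rw [mul_pow, Real.sq_sqrt hd0.le]
    exact h9
  have hcau : CauchySeq S := by
    refine cauchySeq_of_le_tendsto_0' (fun n : ℕ => √(1 / ((n : ℝ) + 1))) ?_ ?_
    · intro n m hnm
      rw [dist_eq_norm]
      exact hdist n m hnm
    · have h1 : Tendsto (fun n : ℕ => √(1 / ((n : ℝ) + 1))) atTop (𝓝 (√0)) :=
        (Real.continuous_sqrt.tendsto _).comp tendsto_one_div_add_atTop_nhds_zero_nat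
      rwa [Real.sqrt_zero] at h1
  obtain ⟨S₀, hS₀⟩ := cauchySeq_tendsto_of_complete hcau
  refine ⟨S₀, SelfAdj.of_tendsto hX hJ hSsa hS₀, ?_⟩
  have h1 : Tendsto (fun n => S n * S n) atTop (𝓝 (S₀ * S₀)) := hS₀.mul hS₀
  have h2 : Tendsto (fun n => β n • (1 : X →L[ℂ] X) - A) atTop (𝓝 (γ • (1 : X →L[ℂ] X) - A)) := by
    have h3 : Tendsto β atTop (𝓝 γ) := by
      have := tendsto_one_div_add_atTop_nhds_zero_nat (𝕜 := ℝ)
      have h4 := this.const_add γ
      rw [add_zero] at h4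
      exact h4
    exact (h3.smul_const _).sub_const _
  simp only [hSS] at h1
  exact tendsto_nhds_unique h1 h2

/-- The minimum modulus. -/
noncomputable def minMod (T : X →L[ℂ] X) : ℝ := sInf {r | ∃ x : X, ‖x‖ = 1 ∧ r = ‖T x‖}

theorem both (hX : Smooth X) (hJ : IsDuality J) {T : X →L[ℂ] X} (hT : SelfAdj J T) :
    (∃ S : X →L[ℂ] X, SelfAdj J S ∧ S * S = (‖T‖ ^ 2) • (1 : X →L[ℂ] X) - T * T) ∧
    ∃ S : X →L[ℂ] X, SelfAdj J S ∧ S * S = T * T - (minMod T ^ 2) • (1 : X →L[ℂ] X) := by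
  obtain ⟨S, hS, hSS⟩ := exists_sqrt hX hJ hT le_rfl
  refine ⟨⟨S, hS, hSS⟩, ?_⟩
  have hbdd : BddBelow {r | ∃ x : X, ‖x‖ = 1 ∧ r = ‖T x‖} := by
    refine ⟨0, ?_⟩
    rintro r ⟨x, _, rfl⟩
    exact norm_nonneg _
  have hm0 : 0 ≤ minMod T := by
    apply Real.sInf_nonneg
    rintro r ⟨x, _, rfl⟩
    exact norm_nonneg _
  have hmx : ∀ x, minMod T * ‖x‖ ≤ ‖T x‖ := by
    intro x
    by_cases hx : x = 0
    · simp [hx]
    have hx0 : 0 < ‖x‖ := norm_pos_iff.2 hx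
    have h1 : minMod T ≤ ‖T (‖x‖⁻¹ • x)‖ := by
      apply csInf_le hbdd
      refine ⟨‖x‖⁻¹ • x, ?_, rfl⟩
      rw [norm_smul, norm_inv, norm_norm, inv_mul_cancel₀ hx0.ne']
    have h2 : T (‖x‖⁻¹ • x) = ‖x‖⁻¹ • T x := by
      rw [← Complex.coe_smul, map_smul, Complex.coe_smul]
    rw [h2, norm_smul, norm_inv, norm_norm] at h1
    calc minMod T * ‖x‖ ≤ ‖x‖⁻¹ * ‖T x‖ * ‖x‖ := by gcongr
      _ = ‖T x‖ := by field_simp
  set γ := ‖T‖ ^ 2 - minMod T ^ 2 with hγ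
  have hSx : ∀ x, ‖S x‖ ^ 2 ≤ γ * ‖x‖ ^ 2 := by
    intro x
    rw [← hS.norm_sq hJ, hSS, _root_.sub_apply, map_sub, Complex.sub_re,
      hT.norm_sq hJ]
    have h1 : (J x (((‖T‖ ^ 2) • (1 : X →L[ℂ] X)) x)).re = ‖T‖ ^ 2 * ‖x‖ ^ 2 := by
      rw [_root_.smul_apply, one_apply_eq_self, ← Complex.coe_smul, map_smul,
        smul_eq_mul, Complex.re_ofReal_mul, J_self_re hJ]
    rw [h1]
    have h2 := hmx x
    have h3 : (minMod T * ‖x‖) ^ 2 ≤ ‖T x‖ ^ 2 := by gcongr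
    rw [hγ]
    nlinarith
  have hγ0 : 0 ≤ γ := by
    by_cases hne : ∃ x : X, ‖x‖ = 1
    · obtain ⟨x, hx⟩ := hne
      have := hSx x
      rw [hx, one_pow, mul_one] at this
      exact (sq_nonneg _).trans this
    · have h1 : {r | ∃ x : X, ‖x‖ = 1 ∧ r = ‖T x‖} = ∅ := by
        ext r
        simp only [Set.mem_ofPred_eq, Set.mem_empty_iff_false, iff_false]
        rintro ⟨x, hx, _⟩
        exact hne ⟨x, hx⟩
      have h2 : minMod T = 0 := by
        rw [minMod, h1, Real.sInf_empty]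
      rw [hγ, h2]
      simp
  obtain ⟨S₂, hS₂, hSS₂⟩ := exists_sqrt hX hJ hS (norm_le_of_sq hγ0 hSx)
  refine ⟨S₂, hS₂, ?_⟩
  rw [hSS₂, hSS, hγ]
  module

end Q88.SM
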